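import Pool.Agent.T9h38.Ab.Main

/-!
# Bidouble and other abelian covers of projective space branched along hyperplanes

Let `k` be an algebraically closed field of characteristic zero, for example the field of algebraic
numbers, and let `l_i = 0`, `i = 1, …, N`, be hyperplanes in general position in `ℙⁿ` (`GenPos`: any
`n + 1` or fewer of the linear forms are linearly independent). Let `X` be the abelian cover (or a
component of it)

`y_j ^ m = ∏ l_i ^ (a_ji)`, `j = 1, …, s`, `∑_i a_ji ≡ 0 (mod m)`

of `ℙⁿ`, with arbitrary exponents. `L` is the function field of `X`; it is generated by affine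
coordinates `x_1, …, x_n` of `ℙⁿ` and by the `y_j` (`AbCover`; the hyperplane at infinity may be one
of the hyperplanes). Every cover of `ℙⁿ` with abelian Galois group which is branched at most along
these hyperplanes is of this form. Let `N'` be the number of the hyperplanes `l_i = 0` along which
`X` is branched, i.e. not all `a_ji` are divisible by `m` (`branch`).

**Theorem.** (1) Let `m = s = 2` (bidouble covers, with the Galois group `(ℤ/2)²`). The following are
equivalent: `X` is unirational; `X` is uniruled; `K_X` is not pseudo-effective; `κ(X) = -∞`;
`N' ≤ 2 n + 1`. If `N' ≤ 2 n`, then `X` is rational. (The condition `p_g(X) = 0` is weaker: for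
`n = 2`, `N' = 6` there are Enriques surfaces.)

(2) Let `m = 2` (covers with the Galois group `(ℤ/2)^s`). If `N' ≥ 2 n + 2`, then `κ(X) ≥ 0`, and `X`
is not uniruled and not unirational. If `s ≥ 2` and `N' ≤ 2 n + 3 - 2 ^ s`, or if
`(N' - n - 1) s ≤ n`, then `X` is rational.

(3) Let `m` and `s` be arbitrary. If `(N' - n - 1) (D - 1) ≤ n`, where `D` is Davenport's constant of
the Galois group `G` (every sequence of `D` elements of `G` has a nonempty subsequence with sum
zero), then `X` is rational. More precisely, `X` is rational if the branch hyperplanes can be divided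
into at least `N' - n` classes with sums of exponents divisible by `m`.

So there is a simple algorithm which decides the unirationality of all bidouble covers of projective
spaces of this kind, in all dimensions and for any number of hyperplanes, and an algorithm which
decides their rationality if `N' ≠ 2 n + 1`. (The remarks on algorithms are not formalised.)

Proof. Rationality: the quotients of the linear forms within the classes are coordinates of `ℙⁿ`, and
`X` is given by equations `z_j ^ m = monomial` in them. Unirationality for `N' = 2 n + 1`: the
hyperplanes form `n - 1` pairs with equal exponents modulo two, and one triple. The quotients of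
the pairs give a conic bundle structure `α Y₁² / τ₁ + β Y₂² / τ₂ + γ t = 0` of `X` over
`(ℙ¹)^(n-1)`, where `α, β, γ` are linear functions of the quotient `t` of the first pair; after a
linear change of the exponents `τ₁` and `τ₂` do not depend on `t`. The square root of
`-α β τ₁ τ₂` splits the conic, and is a conic itself with a rational point over the field of the
other quotients. So this double cover of `X` is rational. Kodaira dimension: the bicanonical form
`(dx₁ ∧ ⋯ ∧ dxₙ)² / ∏ l_i` (product over the branch hyperplanes) is regular on the smooth models of
`X`, since forms with logarithmic poles have simple poles, and the order of the product is at least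
two, if it is positive.
-/

set_option autoImplicit false
set_option linter.overlappingInstances false

open Pool.Agent.T9h38.Cyc
open Pool.Agent.T9h38.Ab
open Pool.Agent.W602.GT (Psef KodGe)
open Pool.Agent.W619.PQ (IsUniruled)
open Pool.Agent.W619.TW (IsUnirational)

namespace Pool.Agent.Results.MP_1dc56d_ag.AbelianHyperplaneCovers

/-- Every sequence of `D` elements of `G` has a nonempty subsequence with sum zero. -/
def DavenportLe {A : Type} [AddCommGroup A] (G : AddSubgroup A) (D : ℕ) : Prop :=
  ∀ g : Fin D → A, (∀ i, g i ∈ G) → ∃ T : Finset (Fin D), T.Nonempty ∧ ∑ i ∈ T, g i = 0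

/-- **Abelian covers of projective space branched along hyperplanes in general position.** `L` is the
function field of (a component of) the cover `y_j ^ m = ∏ l_i ^ (a_ji)` of the projective space with
the coordinates `1, x_1, …, x_n`, the `l_i` are linear forms in general position; `branch m a` is the
set of the branch hyperplanes, and `label m a i` is the vector of the residues modulo `m` of the
exponents of `l_i` (the inertia group of the hyperplane is generated by it). -/
theorem result {k : Type} [Field k] [IsAlgClosed k] [CharZero k] {n N m s : ℕ} (hn : 1 ≤ n)
    (hm : 1 ≤ m) {c : Fin N → Fin (n + 1) → k} (hc : GenPos c) {a : Fin s → Fin N → ℕ}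
    (ha : ∀ j, m ∣ ∑ i, a j i) {L : Type} [Field L] [Algebra k L] {x : Fin n → L} {y : Fin s → L}
    (h : AbCover m c a x y) :
    (m = 2 → s = 2 →
      [IsUnirational k L n, IsUniruled k L n, ¬ Psef k L n (fun _ => False),
        ¬ KodGe k L n (fun _ => False) 0, (branch m a).card ≤ 2 * n + 1].TFAE ∧
      ((branch m a).card ≤ 2 * n → IsRational k L n)) ∧
    (m = 2 →
      (2 * n + 2 ≤ (branch m a).card →
        KodGe k L n (fun _ => False) 0 ∧ ¬ IsUniruled k L n ∧ ¬ IsUnirational k L n) ∧
      (2 ≤ s → (branch m a).card + 2 ^ s ≤ 2 * n + 3 → IsRational k L n) ∧
      (((branch m a).card - n - 1) * s ≤ n → IsRational k L n)) ∧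
    (∀ (G : AddSubgroup (Fin s → ZMod m)) (D : ℕ), (∀ i, label m a i ∈ G) → 1 ≤ D →
      DavenportLe G D → ((branch m a).card - n - 1) * (D - 1) ≤ n → IsRational k L n) ∧
    (∀ r, ZBlocks (label m a) (branch m a) r → (branch m a).card - n ≤ r →
      IsRational k L n) := by
  classical
  refine ⟨?_, ?_, ?_, ?_⟩
  · rintro rfl rfl
    exact ⟨h.tfae hn hc ha, h.rational_two hc ha⟩
  · rintro rfl
    refine ⟨fun hB => ?_, fun hs hB => h.rational_pow hs hc ha hB, fun hB => ?_⟩
    · have := h.ess
      obtain ⟨h23, h34, -⟩ := negative_chain (h.trdeg (by norm_num))
      have hk := h.kod hc ha hB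
      have hu : ¬ IsUniruled k L n := fun h' => h34 (h23 h') hk
      exact ⟨hk, hu, fun h' => hu (uniruled_of_unirational hn h')⟩
    · exact h.rational_davenport hc (by norm_num) ha (D := s + 1) (by omega)
        (fun S hS => davenport_two _ S hS) (by simpa using hB)
  · intro G D hG hD1 hD hB
    refine h.rational_davenport hc hm ha hD1 (fun S hS => ?_) hB
    obtain ⟨U, hUS, hU⟩ := Finset.exists_subset_card_eq hS
    let e : Fin D ≃ U := (Fintype.equivFinOfCardEq (by simpa using hU)).symm
    obtain ⟨T, hT, hT0⟩ := hD (fun i => label m a (e i)) (fun i => hG _)
    refine ⟨T.map ⟨fun i => ((e i : U) : Fin N), fun i j hij => e.injective (Subtype.ext hij)⟩,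
      ?_, hT.map, ?_⟩
    · intro i hi
      obtain ⟨j, -, rfl⟩ := Finset.mem_map.1 hi
      exact hUS (e j).2
    · rw [Finset.sum_map]
      exact hT0
  · intro r hr hB
    exact h.rational_of_blocks hc hm ha hr (by omega)

end Pool.Agent.Results.MP_1dc56d_ag.AbelianHyperplaneCovers
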