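import Pool.Agent.T9h38.Cyc.Main2

/-!
# Rationality of cyclic covers of projective spaces of large dimension

Let `k` be an algebraically closed field of characteristic zero, for example the field of algebraic
numbers, and let `l_1, …, l_N` be linear forms in general position on `ℙⁿ` (`GenPos`: any `n + 1` or
fewer of them are linearly independent). Let `X` be the cyclic cover

`y ^ m = ∏ l_i ^ a_i`, `∑ a_i ≡ 0 (mod m)`,

of `ℙⁿ` of arbitrary degree `m` with arbitrary exponents `a_i` (or a component of it), and let `L` be
the function field of `X`: it is generated by affine coordinates `x_1, …, x_n` of `ℙⁿ` and by `y`
(`Cover`).

**Theorem.** Let `(N - n - 1) ⌊m/2⌋ ≤ n`. The following are equivalent: `X` is rational; `X` is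
unirational; `X` is uniruled; `K_X` is not pseudo-effective; `κ(X) = -∞`; `p_g(X) = 0`; the sum of the
least nonnegative residues modulo `m` of the numbers `j a_1, …, j a_N` is at most `n m`, for all `j`.
If `(N - n - 1) (m - 1) ≤ n`, then `X` is rational.

For instance, for `N = n + 2` the theorem holds for all `m ≤ 2 n + 1`; here `X` is a quotient of the
Fermat variety of degree `m` and dimension `n`. The second part is the range in which the covers are
always Fano varieties with mild singularities (or special cases of these); the first one is about
twice as large and contains many varieties with `p_g > 0`. The rationality and the unirationality of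
these varieties are decided by a finite numerical test (this remark is not formalised).

Proof. If a sum of residues is larger than `n m`, there is a nonzero canonical form; and if the `N`
hyperplanes can be divided into `N - n` classes with exponent sums divisible by `m`, then `X` is rational
(these parts are in `Cyc.Main`). It remains to find the classes. The combinatorial theorem
(`long_index`) is the following one. Let `S` be a sequence of nonzero elements of `ℤ/m` with sum zero,
and let `L` be the largest number of classes with sum zero into which it can be divided. *If `S` has
more than `L (⌊m/2⌋ + 1)` terms, then there is a generator `g` of `ℤ/m` such that the terms of `S`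
are `n_i g` with `1 ≤ n_i < m` and `∑ n_i = L m`.* For `L = 1` this is the theorem of Savchev and
Chen, and Yuan, on the index of long minimal zero-sum sequences. For this theorem we have found a very
short proof (`savchev_chen`): if every term of a zero-free sequence contributes only one new subset
sum, then the set of the other subset sums is invariant under the differences of the terms, so that
the terms are equal; otherwise a term can be removed. For `L > 1` we take a division into `L` classes
whose first class is as long as possible; its terms are `n_i` with `∑ n_i = m` for a generator, and the
other classes are compared with it.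
-/

set_option autoImplicit false
set_option linter.overlappingInstances false

open Pool.Agent.T9h38.Cyc
open Pool.Agent.W602.GT (Psef KodGe)
open Pool.Agent.W619.PQ (IsUniruled)
open Pool.Agent.W619.TW (IsUnirational)

namespace Pool.Agent.Results.MP_1dc56d_ag.CyclicCoversHighDimension

/-- **Cyclic covers of projective spaces of large dimension, branched along hyperplanes in general
position.** `L` is the function field of (a component of) the cover `y ^ m = ∏ l_i ^ a_i` of the
projective space with the coordinates `1, x_1, …, x_n`, the `l_i`, `i = 1, …, N`, are linear forms in
general position. -/
theorem result {k : Type} [Field k] [IsAlgClosed k] [CharZero k] {n N m : ℕ} (hn : 1 ≤ n)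
    (hm : 1 ≤ m) {c : Fin N → Fin (n + 1) → k} (hc : GenPos c) {a : Fin N → ℕ} (ha : m ∣ ∑ i, a i)
    {L : Type} [Field L] [Algebra k L] {x : Fin n → L} {y : L} (h : Cover m c a x y) :
    ((N - n - 1) * (m / 2) ≤ n →
      [IsRational k L n, IsUnirational k L n, IsUniruled k L n, ¬ Psef k L n (fun _ => False),
        ¬ KodGe k L n (fun _ => False) 0, GenusZero k L n,
        ∀ j : ℕ, ∑ i, (j * a i) % m ≤ n * m].TFAE) ∧
    ((N - n - 1) * (m - 1) ≤ n → IsRational k L n) :=
  ⟨fun hN => h.tfae_long hn hc hm hN ha, fun hN => h.rational_fano hn hc hm hN ha⟩

end Pool.Agent.Results.MP_1dc56d_ag.CyclicCoversHighDimension
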