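import Pool.Agent.T9h38.Cyc.Main3

/-!
# Rationality of cyclic covers of projective space with two exponents

Let `k` be an algebraically closed field of characteristic zero, for example the field of algebraic
numbers, and let `l_1, …, l_N` be linear forms in general position on `ℙⁿ` (`GenPos`: any `n + 1` or
fewer of them are linearly independent). Let `X` be the cyclic cover

`y ^ m = ∏ l_i ^ a_i`, `∑ a_i ≡ 0 (mod m)`,

of `ℙⁿ` of arbitrary degree `m` (or a component of it), and let `L` be the function field of `X`: it is
generated by affine coordinates `x_1, …, x_n` of `ℙⁿ` and by `y` (`Cover`). Assume that there are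
`r, s ∈ ℤ/m` such that all the exponents are congruent to `0`, `r`, `-r`, `s` or `-s` modulo `m`. For
instance, `X` may be the cover `y ^ m = f ^ r g ^ s` for products `f`, `g` of any numbers of the linear
forms.

**Theorem.** The following are equivalent: `X` is rational; `X` is unirational; `X` is uniruled; `K_X`
is not pseudo-effective; `κ(X) = -∞`; `p_g(X) = 0`; the sum of the least nonnegative residues modulo `m`
of the numbers `j a_1, …, j a_N` is at most `n m`, for all `j`.

There is no condition on `m`, `n` and `N`. So the rationality and the unirationality of all these
varieties are decided by a finite numerical test (this remark is not formalised). The theorem is not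
true, in this form, for three exponents up to sign: for `m = 6`, `n = 4` and the exponents
`1, 4, 4, 3, 1, 4, 4, 3` one has `p_g = 0`, but there is a nonzero bicanonical form (this is not
formalised either).

Proof. If a sum of residues is larger than `n m`, there is a nonzero canonical form; and if the `N`
hyperplanes can be divided into `N - n` classes with exponent sums divisible by `m`, then `X` is rational
(these parts are in `Cyc.Main`). It remains to find the classes. Zero exponents and pairs of opposite
exponents are classes. After this reduction there are `u` exponents equal to `± r` and `v` exponents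
equal to `± s`, with fixed signs, and the vector `(u, v)` is in the lattice `Λ` of the `(x, y)` with
`± r x ± s y ≡ 0 (mod m)`. By the algorithm of Hirzebruch and Jung the quadrant is divided into
cones spanned by bases `e, f` of `Λ`, with `e, f` in the quadrant, such that the linear form with the
value `1` at `e` and `f` has positive coefficients. This form is `(x, y) ↦ (p x + q y) / m`, where `p`
and `q` are the residues of `± j r` and `± j s` for some `j`, because it is integral on `Λ`. If
`(u, v) = α e + β f`, there are `α + β` classes, and `α + β = (p u + q v) / m` is the number which occurs
in the numerical condition for `j` (`exists_pair`, `two_values`, `reduce_two`).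
-/

set_option autoImplicit false
set_option linter.overlappingInstances false

open Pool.Agent.T9h38.Cyc
open Pool.Agent.W602.GT (Psef KodGe)
open Pool.Agent.W619.PQ (IsUniruled)
open Pool.Agent.W619.TW (IsUnirational)

namespace Pool.Agent.Results.MP_1dc56d_ag.CyclicCoversTwoExponents

/-- **Cyclic covers of projective space branched along hyperplanes in general position, with at most
two nonzero exponents up to sign.** `L` is the function field of (a component of) the cover
`y ^ m = ∏ l_i ^ a_i` of the projective space with the coordinates `1, x_1, …, x_n`. -/
theorem result {k : Type} [Field k] [IsAlgClosed k] [CharZero k] {n N m : ℕ} (hn : 1 ≤ n)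
    (hm : 1 ≤ m) {c : Fin N → Fin (n + 1) → k} (hc : GenPos c) {a : Fin N → ℕ} (ha : m ∣ ∑ i, a i)
    (r s : ZMod m)
    (hrs : ∀ i, (a i : ZMod m) = 0 ∨ (a i : ZMod m) = r ∨ (a i : ZMod m) = -r ∨
      (a i : ZMod m) = s ∨ (a i : ZMod m) = -s)
    {L : Type} [Field L] [Algebra k L] {x : Fin n → L} {y : L} (h : Cover m c a x y) :
    [IsRational k L n, IsUnirational k L n, IsUniruled k L n, ¬ Psef k L n (fun _ => False),
      ¬ KodGe k L n (fun _ => False) 0, GenusZero k L n,
      ∀ j : ℕ, ∑ i, (j * a i) % m ≤ n * m].TFAE :=
  h.tfae_two hn hc hm ha r s hrs

end Pool.Agent.Results.MP_1dc56d_ag.CyclicCoversTwoExponents
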