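import Pool.Agent.T9h38.Cyc.Main

/-!
# Rationality of cyclic covers of projective space branched along hyperplanes

Let `k` be an algebraically closed field of characteristic zero, for example the field of algebraic
numbers, and let `l_i = 0`, `i = 1, …, N`, be hyperplanes in general position in `ℙⁿ` (`GenPos`: any
`n + 1` or fewer of the linear forms are linearly independent). Let `X` be the cyclic cover of degree `m`
(or a component of it)

`y ^ m = ∏ l_i ^ a_i`, `∑ a_i ≡ 0 (mod m)`,

of `ℙⁿ` with arbitrary exponents `a_i`. `L` is the function field of `X`; it is generated by affine
coordinates `x_1, …, x_n` of `ℙⁿ` and by `y` (`Cover`; the hyperplane at infinity may be one of the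
hyperplanes).

**Theorem.** Let `m ≤ 5` or `m = 7`, or let `m` be arbitrary and let all the exponents be congruent
to `0`, `1` or `-1` modulo `m`. The following are equivalent: `X` is rational; `X` is unirational; `X`
is uniruled; `K_X` is not pseudo-effective; `κ(X) = -∞`; `p_g(X) = 0`; the sum of the least
nonnegative residues modulo `m` of the numbers `j a_1, …, j a_N` is at most `n m`, for all `j`.

So there is a simple algorithm which decides the rationality and the unirationality of all these
varieties, in all dimensions and for any number of hyperplanes (the last condition is periodic in
`j`; general position and the degrees of the input can be checked. This remark is not formalised.)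

The second part of the theorem holds for all `m` and all exponents: if the `N > n` hyperplanes can be
divided into `N - n` nonempty classes such that the sum of the exponents in each class is divisible
by `m`, then `X` is rational.

Proof. Second part: the quotients of the linear forms within the classes are `n` coordinates of `ℙⁿ`;
this follows from a linear system for the quotients of forms of different classes, whose
determinant is `1` when the coordinates are zero. In these coordinates `X` is given by
`z ^ m = monomial`. First part: if a sum of residues is larger than `n m`, then the form
`w⁻¹ dx_1 ∧ ⋯ ∧ dx_n` is regular on the smooth models of `X`, where `w` is the quotient of `y ^ j` by a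
product of powers of the `l_i`: logarithmic forms have at most simple poles. If there is no such `j`,
then there is a division into classes as above. This is the combinatorial part of the proof: for these
`m`, the maximal number of classes with sum zero, into which a finite sequence in `ℤ/m` with sum zero
can be divided, is the smallest of the numbers `∑ |c a_i| / m`, where `|a|` is the representative of `a`
between `1` and `m`. (This is not true for `m = 6`: the sequence `1, 4, 4, 3` has no proper
subsequence with sum zero, but the numbers are at least two. It is also false for `m = 8`.)
-/

set_option autoImplicit false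
set_option linter.overlappingInstances false

open Pool.Agent.T9h38.Cyc
open Pool.Agent.W602.GT (Psef KodGe)
open Pool.Agent.W619.PQ (IsUniruled)
open Pool.Agent.W619.TW (IsUnirational)

namespace Pool.Agent.Results.MP_1dc56d_ag.CyclicHyperplaneCovers

/-- **Cyclic covers of projective space branched along hyperplanes in general position.** `L` is the
function field of (a component of) the cover `y ^ m = ∏ l_i ^ a_i` of the projective space with the
coordinates `1, x_1, …, x_n`, the `l_i` are linear forms in general position. -/
theorem result {k : Type} [Field k] [IsAlgClosed k] [CharZero k] {n N m : ℕ} (hn : 1 ≤ n)
    (hm : 1 ≤ m) {c : Fin N → Fin (n + 1) → k} (hc : GenPos c) {a : Fin N → ℕ} (ha : m ∣ ∑ i, a i)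
    {L : Type} [Field L] [Algebra k L] {x : Fin n → L} {y : L} (h : Cover m c a x y) :
    ((m ≤ 5 ∨ m = 7 ∨ ∀ i, (a i : ZMod m) = 0 ∨ (a i : ZMod m) = 1 ∨ (a i : ZMod m) = -1) →
      [IsRational k L n, IsUnirational k L n, IsUniruled k L n, ¬ Psef k L n (fun _ => False),
        ¬ KodGe k L n (fun _ => False) 0, GenusZero k L n,
        ∀ j : ℕ, ∑ i, (j * a i) % m ≤ n * m].TFAE) ∧
    (n < N → ∀ f : Fin N → Fin (N - n), Function.Surjective f →
      (∀ b, m ∣ ∑ i ∈ Finset.univ.filter fun i => f i = b, a i) → IsRational k L n) :=
  ⟨fun hma => h.tfae_small hn hc hm hma ha, fun hN f hf hf0 =>
    h.rational_of_classes hc hm hN f hf hf0⟩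

end Pool.Agent.Results.MP_1dc56d_ag.CyclicHyperplaneCovers
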